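import Mathlib
import Pool.Agent.R789.C1Curve
import Pool.Agent.K6.H11.GL.Final

/-!
# Homeomorphisms of surfaces preserving `C¹` curves are differentiable almost everywhere

Problem MP_bd3523_gt, Q2 (answer: no). For every smooth surface `S` and every `f ∈ Homeo¹(S)` the
set of the points at which `f` is not differentiable is a null set in all smooth charts.

Proof. A homeomorphism which maps `C¹` curves onto `C¹` curves maps every small segment in a chart
into a `C¹` curve, so that its restriction to the segment is locally the composition of a monotone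
function and a `C¹` map, and it is differentiable at almost every point of the segment. Therefore the
two partial derivatives exist almost everywhere, and by the theorem of Gehring and Lehto (proved in
`Pool/Agent/K6/H11/GL/Main.lean`) a homeomorphism between plane domains which has partial derivatives
almost everywhere is differentiable almost everywhere.

A smooth surface is a smooth manifold modelled on `ℂ = ℝ²`. The definitions `IsC1Curve`, `Homeo1` and
`nonDiff` are those of the starting file `Pool/Agent/R789/C1Curve.lean`.
-/

set_option autoImplicit false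

open Set MeasureTheory R789.C1
open scoped Manifold ContDiff

namespace Pool.Agent.Results.MP_bd3523_gt.NullNonDiff

universe u v

/-- `E` has positive measure: in some smooth chart, the image of the part of `E` in the domain of the
chart has positive two-dimensional Lebesgue measure. -/
def PositiveMeasure {S : Type u} [TopologicalSpace S] [ChartedSpace ℂ S] (E : Set S) : Prop :=
  ∃ φ ∈ IsManifold.maximalAtlas 𝓘(ℝ, ℂ) ∞ S, 0 < volume (φ '' (E ∩ φ.source))

/-- (1) For no smooth surface `S` and no `f ∈ Homeo¹(S)` has the non-differentiable set positive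
measure.
(2) More generally, let `f` be a homeomorphism between smooth surfaces `S` and `T` which maps every
`C¹` curve onto a `C¹` curve (nothing is assumed about the inverse). Then in every smooth chart the
points of non-differentiability form a null set. -/
theorem result :
    (¬ ∃ (S : Type u) (_ : TopologicalSpace S) (_ : T2Space S) (_ : ChartedSpace ℂ S)
      (_ : IsManifold 𝓘(ℝ, ℂ) ∞ S) (f : S ≃ₜ S), Homeo1 f ∧ PositiveMeasure (nonDiff f)) ∧
    ∀ (S : Type u) (T : Type v) [TopologicalSpace S] [T2Space S] [ChartedSpace ℂ S]
      [IsManifold 𝓘(ℝ, ℂ) ∞ S] [TopologicalSpace T] [T2Space T] [ChartedSpace ℂ T]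
      [IsManifold 𝓘(ℝ, ℂ) ∞ T] (f : S ≃ₜ T),
      (∀ Γ : Set S, IsC1Curve Γ → IsC1Curve (f '' Γ)) →
      ∀ φ ∈ IsManifold.maximalAtlas 𝓘(ℝ, ℂ) ∞ S,
        volume (φ '' ({p | ¬ MDifferentiableAt 𝓘(ℝ, ℂ) 𝓘(ℝ, ℂ) f p} ∩ φ.source)) = 0 := by
  constructor
  · rintro ⟨S, _, _, _, _, f, hf, φ, hφ, h⟩
    have h1 := Pool.Agent.K6.H11.GL.null (f := f) hf.1 hφ
    rw [inter_comm] at h1
    exact absurd h1 h.ne'
  · intro S T _ _ _ _ _ _ _ _ f hf φ hφ
    rw [inter_comm]
    exact Pool.Agent.K6.H11.GL.null hf hφ

end Pool.Agent.Results.MP_bd3523_gt.NullNonDiff
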